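import Mathlib
import Pool.Agent.J4H16.AS.Defs

/-!
# Lifts over the complement of the postcritical set
-/

set_option autoImplicit false
open Set Filter Topology Metric Complex MeasureTheory

namespace Pool.Agent.J4H8.AS

open Pool.Agent.J4H16 Pool.Agent.J4H16.AS Pool.Agent.W746.LD

theorem orb_crit_mem {n : ℕ} {c : ℂ} {z : ℂ} {j m : ℕ} (hj : j < m)
    (h0 : orb n c z j = 0) : orb n c z m ∈ PC n c := by
  obtain ⟨k, rfl⟩ : ∃ k, m = j + (k + 1) := ⟨m - j - 1, by omega⟩
  rw [orb_add, h0]
  exact orb_mem_PC (by omega)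

theorem t_UNIQ : S_UNIQ := by
  intro n c m V E H1 H2 w0 hn hV hVc hw0 hE d1 d2 e1 e2 h0
  have key : ∀ j ≤ m, ∀ w ∈ V, orb n c (H1 w) (m - j) = orb n c (H2 w) (m - j) := by
    intro j
    induction j with
    | zero =>
      intro _ w hw
      rw [Nat.sub_zero, e1 w hw, e2 w hw]
    | succ j ih =>
      intro hj
      have h1 := ih (by omega)
      refine pow_unique hn hV hVc ((differentiable_orb _).comp_differentiableOn d1)
        ((differentiable_orb _).comp_differentiableOn d2) ?_ ?_ hw0 ?_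
      · intro w hw
        have h2 := h1 w hw
        have h3 : m - j = (m - (j + 1)) + 1 := by omega
        rw [h3, orb_succ, orb_succ] at h2
        exact add_right_cancel h2
      · intro w hw h4
        apply hE w hw
        rw [← e2 w hw]
        exact orb_crit_mem (by omega) h4
      · rw [h0]
  intro w hw
  have := key m le_rfl w hw
  simpa using this

/-- A continuous logarithm of a holomorphic function is holomorphic. -/
theorem diff_of_log {l h : ℂ → ℂ} {V : Set ℂ} (hV : IsOpen V) (hl : ContinuousOn l V)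
    (hh : DifferentiableOn ℂ h V) (he : ∀ w ∈ V, Complex.exp (l w) = h w) :
    DifferentiableOn ℂ l V := by
  intro w1 hw1
  apply DifferentiableAt.differentiableWithinAt
  have hV' := hV.mem_nhds hw1
  have hne : h w1 ≠ 0 := by rw [← he w1 hw1]; exact Complex.exp_ne_zero _
  have hc1 : ContinuousAt (fun w => (l w - l w1).im) w1 :=
    Complex.continuous_im.continuousAt.comp ((hl.continuousAt hV').sub continuousAt_const)
  have h1 : ∀ᶠ w in 𝓝 w1, |(l w - l w1).im| < Real.pi := by
    have : |(l w1 - l w1).im| < Real.pi := by simpa using Real.pi_pos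
    exact hc1.abs.eventually_lt continuousAt_const this
  have h2 : l =ᶠ[𝓝 w1] fun w => Complex.log (h w / h w1) + l w1 := by
    filter_upwards [h1, hV'] with w hw hwV
    rw [← he w hwV, ← he w1 hw1, ← Complex.exp_sub, Complex.log_exp]
    · ring
    · exact (abs_lt.mp hw).1
    · exact (abs_lt.mp hw).2.le
  refine DifferentiableAt.congr_of_eventuallyEq ?_ h2
  apply DifferentiableAt.add_const
  apply DifferentiableAt.clog
  · exact (hh.differentiableAt hV').div_const _
  · rw [div_self hne]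
    exact Complex.one_mem_slitPlane

theorem exists_log_convex {h : ℂ → ℂ} {V : Set ℂ} (hV : IsOpen V) (hVc : Convex ℝ V)
    (hne : V.Nonempty) (hh : DifferentiableOn ℂ h V) (h0 : ∀ w ∈ V, h w ≠ 0) :
    ∃ l : ℂ → ℂ, DifferentiableOn ℂ l V ∧ ∀ w ∈ V, Complex.exp (l w) = h w := by
  have hsc : IsSimplyConnected V := by
    have : ContractibleSpace V := hVc.contractibleSpace hne
    show SimplyConnectedSpace V
    infer_instance
  obtain ⟨l, hl, hE⟩ := Complex.exists_continuousOn_eqOn_exp_comp hsc hV hh.continuousOn (by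
      rintro ⟨z, hzV, hz⟩
      exact h0 z hzV hz)
  exact ⟨l, diff_of_log hV hl hh (fun w hw => hE hw), fun w hw => hE hw⟩

/-- One step of the lift. -/
theorem lift_step {n : ℕ} (hn : 2 ≤ n) {c : ℂ} {h : ℂ → ℂ} {V : Set ℂ} (hV : IsOpen V)
    (hVc : Convex ℝ V) (hh : DifferentiableOn ℂ h V) (hne : ∀ w ∈ V, h w ≠ c) {w0 z : ℂ}
    (hw0 : w0 ∈ V) (hz : z ^ n + c = h w0) :
    ∃ h' : ℂ → ℂ, DifferentiableOn ℂ h' V ∧ h' w0 = z ∧ ∀ w ∈ V, h' w ^ n + c = h w := by
  have hn0 : (n : ℂ) ≠ 0 := by exact_mod_cast (by omega : n ≠ 0)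
  have hz0 : z ≠ 0 := by
    rintro rfl
    rw [zero_pow (by omega), zero_add] at hz
    exact hne w0 hw0 hz.symm
  obtain ⟨l, hl1, hl3⟩ := exists_log_convex hV hVc ⟨w0, hw0⟩ (hh.sub_const c)
    (fun ζ hζ => sub_ne_zero.mpr (hne ζ hζ))
  set u : ℂ := z / Complex.exp (l w0 / n) with hu
  have he0 : ∀ w, Complex.exp (l w / n) ≠ 0 := fun w => Complex.exp_ne_zero _
  have hu1 : u ^ n = 1 := by
    rw [hu, div_pow, exp_pow hn, hl3 w0 hw0, ← hz, add_sub_cancel_right, div_self]
    exact pow_ne_zero _ hz0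
  have key : ∀ w ∈ V, (u * Complex.exp (l w / n)) ^ n + c = h w := by
    intro w hw
    rw [mul_pow, hu1, one_mul, exp_pow hn, hl3 w hw]
    ring
  refine ⟨fun w => u * Complex.exp (l w / n), ((hl1.div_const _).cexp).const_mul u, ?_, key⟩
  simp only [hu]
  rw [div_mul_cancel₀ _ (he0 w0)]

theorem t_LIFT : S_LIFT := by
  intro n c m V E w0 y hn hV hVc hw0 hE hPC hy
  have key : ∀ j ≤ m, ∃ h : ℂ → ℂ, DifferentiableOn ℂ h V ∧ h w0 = orb n c y (m - j) ∧
      ∀ w ∈ V, orb n c (h w) j = E w := by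
    intro j
    induction j with
    | zero => intro _; exact ⟨E, hE, by rw [Nat.sub_zero, hy], fun w _ => rfl⟩
    | succ j ih =>
      intro hj
      obtain ⟨g, h1, h2, h3⟩ := ih (by omega)
      have h4 : (orb n c y (m - (j + 1))) ^ n + c = g w0 := by
        rw [h2, ← orb_succ]
        congr 1
        omega
      have h5 : ∀ w ∈ V, g w ≠ c := by
        intro w hw hwc
        apply hPC w hw
        rw [← h3 w hw, hwc, ← orb_one_crit hn]
        exact orb_mem_PC (by omega)
      obtain ⟨g', h6, h7, h8⟩ := lift_step hn hV hVc h1 h5 hw0 h4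
      refine ⟨g', h6, h7, fun w hw => ?_⟩
      rw [add_comm, orb_add, orb_one, h8 w hw, h3 w hw]
  obtain ⟨H, h1, h2, h3⟩ := key m le_rfl
  exact ⟨H, h1, by simpa using h2, h3⟩

end Pool.Agent.J4H8.AS
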