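import Mathlib
import Pool.Agent.J4H8.AS.Lift

/-!
# Rotation of lifts around the critical point
-/

set_option autoImplicit false
open Set Filter Topology Metric Complex MeasureTheory

namespace Pool.Agent.J4H8.AS

open Pool.Agent.J4H16 Pool.Agent.J4H16.AS Pool.Agent.W746.LD

theorem isOpen_strip (δ : ℝ) : IsOpen (strip δ) :=
  isOpen_lt (Complex.continuous_re.abs) continuous_const

theorem convex_strip (δ : ℝ) : Convex ℝ (strip δ) := by
  have h1 : strip δ = Complex.reLm ⁻¹' (Ioo (-δ) δ) := by
    ext w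
    simp only [strip, mem_ofPred_eq, mem_preimage, mem_Ioo, Complex.reLm_coe, abs_lt]
  rw [h1]
  exact (convex_Ioo _ _).linear_preimage _

theorem strip_norm {δ : ℝ} (hδ : 0 < δ) {w : ℂ} (hw : w ∈ strip (Real.log (1 + δ))) :
    ‖Complex.exp w‖ < 1 + δ ∧ 1 < ‖Complex.exp w‖ * (1 + δ) := by
  have h1 : 0 < 1 + δ := by linarith
  have h2 := abs_lt.mp (show |w.re| < Real.log (1 + δ) from hw)
  rw [Complex.norm_exp]
  constructor
  · calc Real.exp w.re < Real.exp (Real.log (1 + δ)) := Real.exp_lt_exp.mpr h2.2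
      _ = 1 + δ := Real.exp_log h1
  · have h3 : Real.exp (-Real.log (1 + δ)) < Real.exp w.re := Real.exp_lt_exp.mpr h2.1
    rw [Real.exp_neg, Real.exp_log h1] at h3
    calc 1 = (1 + δ)⁻¹ * (1 + δ) := by rw [inv_mul_cancel₀ h1.ne']
      _ < Real.exp w.re * (1 + δ) := by gcongr

theorem t_ROT : S_ROT := by
  intro n c a ρ δ m H hn hρ hδ hδ1 hPC hH hHe
  have h1 : (0 : ℝ) < 1 + δ := by linarith
  have h1c : (1 + δ : ℂ) ≠ 0 := by exact_mod_cast h1.ne'
  have hn0 : (n : ℂ) ≠ 0 := by exact_mod_cast (by omega : n ≠ 0)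
  have hlog : 0 < Real.log (1 + δ) := Real.log_pos (by linarith)
  set V := strip (Real.log (1 + δ)) with hVd
  have hV : IsOpen V := isOpen_strip _
  have hVc : Convex ℝ V := convex_strip _
  have hV0 : (0 : ℂ) ∈ V := by simpa [hVd, strip] using hlog
  have hEPC : ∀ w ∈ V, a + ρ * Complex.exp w ∉ PC n c := by
    intro w hw hmem
    apply hPC _ hmem
    obtain ⟨h2, h3⟩ := strip_norm hδ hw
    rw [add_sub_cancel_left, norm_mul, Complex.norm_real, Real.norm_eq_abs, abs_of_pos hρ]
    constructor
    · apply mul_lt_mul_of_pos_left _ hρ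
      nlinarith
    · exact mul_lt_mul_of_pos_left h2 hρ
  set φ : ℂ → ℂ := fun ζ => a + ρ * (1 + δ) * ζ with hφd
  have hρc : (ρ : ℂ) * (1 + δ) ≠ 0 := mul_ne_zero (by exact_mod_cast hρ.ne') h1c
  have hφ : Univ φ 0 1 := by
    refine ⟨?_, ?_⟩
    · exact ((differentiable_id.const_mul _).const_add _).differentiableOn
    · intro x _ y _ hxy
      simp only [hφd, add_right_inj] at hxy
      exact mul_left_cancel₀ hρc hxy
  set ζ0 : ℂ := 1 / (1 + δ) with hζd
  have hζ0 : ζ0 ∈ ball (0 : ℂ) 1 := by
    rw [mem_ball, dist_zero_right, hζd, norm_div, norm_one]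
    have : ‖(1 + δ : ℂ)‖ = 1 + δ := by
      rw [show (1 + δ : ℂ) = ((1 + δ : ℝ) : ℂ) by push_cast; ring, Complex.norm_real,
        Real.norm_eq_abs, abs_of_pos h1]
    rw [this, div_lt_one h1]
    linarith
  have hn1 : ‖(1 + δ : ℂ)‖ = 1 + δ := by
    rw [show (1 + δ : ℂ) = ((1 + δ : ℝ) : ℂ) by push_cast; ring, Complex.norm_real,
      Real.norm_eq_abs, abs_of_pos h1]
  have hφ0 : φ ζ0 = orb n c (H 0) m := by
    rw [hHe 0 hV0, Complex.exp_zero]
    simp only [hφd, hζd]
    field_simp
  have hmaps : ∀ w ∈ V, Complex.exp w / (1 + δ) ∈ ball (0 : ℂ) 1 := by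
    intro w hw
    rw [mem_ball, dist_zero_right, norm_div, hn1, div_lt_one h1]
    exact (strip_norm hδ hw).1
  have hφe : ∀ w, φ (Complex.exp w / (1 + δ)) = a + ρ * Complex.exp w := by
    intro w
    simp only [hφd]
    field_simp
  have hdiff : ∀ {g : ℂ → ℂ}, DifferentiableOn ℂ g (ball 0 1) →
      DifferentiableOn ℂ (fun w => g (Complex.exp w / (1 + δ))) V := by
    intro g hg
    exact hg.comp (Complex.differentiable_exp.div_const _).differentiableOn hmaps
  by_cases hcase : ∀ j < m, ∀ h, Lf n c j φ h → h ζ0 = orb n c (H 0) (m - j) →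
      ∀ w ∈ ball (0 : ℂ) 1, h w ≠ c
  · left
    obtain ⟨h, hh, hh0⟩ := exists_lf hn hφ hζ0 hφ0 hcase
    refine ⟨h, hh, ?_⟩
    apply t_UNIQ n c m V (fun w => a + ρ * Complex.exp w) H _ 0 hn hV hVc.isPreconnected hV0 hEPC
      hH (hdiff hh.diff) hHe
    · intro w hw
      rw [hh.eq _ (hmaps w hw), hφe]
    · rw [Complex.exp_zero, ← hh0]
  · right
    push Not at hcase
    obtain ⟨j, hj, h, hh, hh0, v, hv, hhv⟩ := hcase
    obtain ⟨k, rfl⟩ : ∃ k, m = k + 1 + j := ⟨m - j - 1, by omega⟩
    have hinj := hh.injOn hφ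
    -- the position of `v`
    have hvn : (1 + δ) * ‖v‖ ≤ 1 - δ := by
      by_contra hcon
      push Not at hcon
      have h2 : φ v ∈ PC n c := by
        rw [← hh.eq v hv, hhv, ← orb_one_crit hn]
        exact orb_mem_PC (by omega)
      apply hPC _ h2
      have hvb : ‖v‖ < 1 := by rwa [mem_ball, dist_zero_right] at hv
      simp only [hφd]
      rw [add_sub_cancel_left, norm_mul, norm_mul, hn1, Complex.norm_real, Real.norm_eq_abs,
        abs_of_pos hρ, mul_assoc]
      constructor
      · exact mul_lt_mul_of_pos_left hcon hρ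
      · apply mul_lt_mul_of_pos_left _ hρ
        nlinarith
    -- the function `T`
    have hT1 : ∀ w ∈ V, orb n c (H w) (k + 1) = h (Complex.exp w / (1 + δ)) := by
      apply t_UNIQ n c j V (fun w => a + ρ * Complex.exp w) _ _ 0 hn hV hVc.isPreconnected hV0
        hEPC ((differentiable_orb _).comp_differentiableOn hH) (hdiff hh.diff)
      · intro w hw
        show orb n c (orb n c (H w) (k + 1)) j = _
        rw [← orb_add, hHe w hw]
      · intro w hw
        rw [hh.eq _ (hmaps w hw), hφe]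
      · show orb n c (H 0) (k + 1) = h (Complex.exp 0 / (1 + δ))
        rw [Complex.exp_zero, ← hζd, hh0]
        congr 1
        omega
    have hT0 : ∀ w ∈ V, orb n c (H w) k ≠ 0 := by
      intro w hw h2
      apply hEPC w hw
      rw [← hHe w hw]
      exact orb_crit_mem (by omega) h2
    have hTn : ∀ w ∈ V, orb n c (H w) k ^ n = h (Complex.exp w / (1 + δ)) - c := by
      intro w hw
      rw [← hT1 w hw, orb_succ, add_sub_cancel_right]
    -- factorisation of `h - c`
    set g : ℂ → ℂ := dslope h v with hgd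
    have hgdiff : DifferentiableOn ℂ g (ball 0 1) :=
      (Complex.differentiableOn_dslope (isOpen_ball.mem_nhds hv)).mpr hh.diff
    have hgfac : ∀ ζ, (ζ - v) * g ζ = h ζ - c := by
      intro ζ
      have := sub_smul_dslope h v ζ
      rw [smul_eq_mul, hhv] at this
      exact this
    have hgne : ∀ ζ ∈ ball (0 : ℂ) 1, g ζ ≠ 0 := by
      intro ζ hζ h2
      rcases eq_or_ne ζ v with rfl | hne
      · simp only [hgd, dslope_same] at h2
        exact Pool.Agent.Helper202.Univ.deriv_ne_zero isOpen_ball hh.diff hinj hv h2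
      · apply hne
        apply hinj hζ hv
        have := hgfac ζ
        rw [h2, mul_zero] at this
        rw [hhv]
        exact (sub_eq_zero.mp this.symm)
    obtain ⟨l, hl1, hl2⟩ := exists_log_convex isOpen_ball (convex_ball (0 : ℂ) 1)
      ⟨0, mem_ball_self one_pos⟩ hgdiff hgne
    set Λ : ℂ → ℂ := fun w => Complex.log (1 - v * (1 + δ) * Complex.exp (-w)) with hΛ
    have hsm : ∀ w ∈ V, ‖v * (1 + δ) * Complex.exp (-w)‖ < 1 := by
      intro w hw
      obtain ⟨h2, h3⟩ := strip_norm hδ hw
      rw [norm_mul, norm_mul, hn1, Complex.exp_neg, norm_inv, mul_comm ‖v‖]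
      have h4 : 0 < ‖Complex.exp w‖ := norm_pos_iff.mpr (Complex.exp_ne_zero _)
      rw [← div_eq_mul_inv, div_lt_one h4]
      nlinarith
    have hslit : ∀ w ∈ V, 1 - v * (1 + δ) * Complex.exp (-w) ∈ slitPlane := by
      intro w hw
      left
      rw [Complex.sub_re, Complex.one_re]
      have := Complex.re_le_norm (v * (1 + δ) * Complex.exp (-w))
      linarith [hsm w hw]
    have hΛd : DifferentiableOn ℂ Λ V := by
      intro w hw
      have h2 : DifferentiableAt ℂ (fun w => 1 - v * (1 + δ) * Complex.exp (-w)) w := by fun_prop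
      exact (h2.clog (hslit w hw)).differentiableWithinAt
    set X : ℂ → ℂ := fun w => (w + Λ w + l (Complex.exp w / (1 + δ))) / n with hX
    have hXd : DifferentiableOn ℂ X V :=
      ((differentiableOn_id.add hΛd).add (hdiff hl1)).div_const _
    have hXn : ∀ w ∈ V, Complex.exp (X w) ^ n = (1 + δ) * orb n c (H w) k ^ n := by
      intro w hw
      rw [← Complex.exp_nat_mul]
      simp only [hX]
      rw [mul_div_cancel₀ _ hn0, Complex.exp_add, Complex.exp_add, hl2 _ (hmaps w hw), hTn w hw,
        ← hgfac]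
      simp only [hΛ]
      rw [Complex.exp_log (slitPlane_ne_zero (hslit w hw)), Complex.exp_neg]
      have h2 := Complex.exp_ne_zero w
      field_simp
    set b : ℂ := orb n c (H 0) k / Complex.exp (X 0) with hb
    have hbn : b ^ n * (1 + δ) = 1 := by
      rw [hb, div_pow, hXn 0 hV0]
      have h2 : orb n c (H 0) k ^ n ≠ 0 := pow_ne_zero _ (hT0 0 hV0)
      field_simp
    have hTX : ∀ w ∈ V, orb n c (H w) k = b * Complex.exp (X w) := by
      refine pow_unique hn hV hVc.isPreconnected ((differentiable_orb _).comp_differentiableOn hH)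
        (hXd.cexp.const_mul b) ?_ ?_ hV0 ?_
      · intro w hw
        rw [mul_pow, hXn w hw, ← mul_assoc, hbn, one_mul]
      · intro w hw
        apply mul_ne_zero _ (Complex.exp_ne_zero _)
        intro h2
        rw [h2, zero_pow (by omega), zero_mul] at hbn
        exact zero_ne_one hbn
      · rw [hb, div_mul_cancel₀ _ (Complex.exp_ne_zero _)]
    refine ⟨k, by omega, fun w hw => ⟨hT0 w hw, ?_⟩⟩
    have hw2 : w + 2 * Real.pi * I ∈ V := by
      have : (w + 2 * Real.pi * I).re = w.re := by simp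
      simp only [hVd, strip, mem_ofPred_eq, this]
      exact hw
    rw [hTX w hw, hTX _ hw2]
    have hXX : X (w + 2 * Real.pi * I) = 2 * Real.pi * I / n + X w := by
      simp only [hX, hΛ]
      rw [Complex.exp_periodic w, neg_add, show Complex.exp (-w + -(2 * Real.pi * I)) =
        Complex.exp (-w) from by
          rw [← sub_eq_add_neg, Complex.exp_periodic.sub_eq]]
      field_simp
      ring
    rw [hXX, Complex.exp_add]
    ring

end Pool.Agent.J4H8.AS
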